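import Mathlib
import Pool.Agent.Helper18.Germ.Spaces
import Pool.Agent.Helper18.Germ.Bridge
import Pool.Agent.Helper18.Germ.Main

/-!
# `𝒪(𝔻 ∪ {1})` and `𝒪(𝔻 ∪ β)` are not isomorphic

Idea of the proof. Let `N` be so large that `z ↦ z ^ N` maps the arc `β` onto the circle. Then
`T g = g(z^N)` maps germs on the closed disc to `𝒪(𝔻 ∪ β)`. Suppose that
`Ψ : 𝒪(𝔻 ∪ {1}) → 𝒪(𝔻 ∪ β)` is an isomorphism and put `A = Ψ⁻¹ T`. By the Baire category theorem
the Taylor coefficients of `A g` at `1` are at most `C n^(j+1) ‖g‖_{|z| < 2}`, and, for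
`W = 𝔻 ∪ B(1, 1/(8n))`, those of `Ψ f` (`f ∈ 𝒪(W)`) at the points of `β` are at most
`C' m^(j+1) sup_K |f|` with `K ⊆ W` compact, whence `‖g‖_{|z| = ρ} ≤ C'' sup_K |A g|` with `ρ > 1`
for all polynomials `g`. A polynomial `g = c_J z^J + ... + c_{J+M} z^{J+M}` for which `A g` has a
zero of order `M` at `1` contradicts this inequality when `J` and then `M` are large.
-/

set_option autoImplicit false

namespace Pool.Agent.Results.MP_d29d91_an.NotIsomorphic

open Pool.Agent.Helper18.Germ Pool.Agent.Helper18.Germ.Spaces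

/-- For every closed non-degenerate arc `β = {e^{iθ} : a ≤ θ ≤ b}` (`a < b`) of the unit circle,
there is no linear homeomorphism between `𝒪(𝔻 ∪ {1})` and `𝒪(𝔻 ∪ β)`. -/
theorem result (a b : ℝ) (hab : a < b) :
    IsEmpty (Spaces.Germs (Metric.ball (0 : ℂ) 1 ∪ {1}) ≃L[ℂ]
      Spaces.Germs (Metric.ball (0 : ℂ) 1 ∪
        (fun θ : ℝ => Complex.exp (θ * Complex.I)) '' Set.Icc a b)) :=
  ⟨fun Ψ => no_iso hab (((Bridge.germEquiv _).symm.trans Ψ).trans (Bridge.germEquiv _))⟩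

end Pool.Agent.Results.MP_d29d91_an.NotIsomorphic
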